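import Mathlib

/-!
# The continuous graph and its half-chromatic number
-/

namespace Pool.Agent.R551.HC

open scoped ENNReal

variable {V : Type} [DecidableEq V]

/-- The point at distance `t` from `u` on the segment from `u` to `v`, in barycentric
coordinates; `pt v v 0` is the vertex `v`. -/
def pt (u v : V) (t : ℝ) : V → ℝ :=
  fun w => (if w = u then 1 - t else 0) + (if w = v then t else 0)

/-- The continuous graph: its points are the vertices and the points of the closed edges. -/
def Gam (G : SimpleGraph V) : Set (V → ℝ) :=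
  {x | (∃ v, x = pt v v 0) ∨ ∃ u v t, G.Adj u v ∧ 0 ≤ t ∧ t ≤ 1 ∧ x = pt u v t}

/-- `Path G p q l`: the points `p` and `q` of the continuous graph are joined by a path of
length `l` made of finitely many segments, each inside a closed edge (of length `1`). -/
inductive Path (G : SimpleGraph V) : (V → ℝ) → (V → ℝ) → ℝ → Prop
  | nil (p : V → ℝ) (hp : p ∈ Gam G) : Path G p p 0
  | cons {p : V → ℝ} {u v : V} {s t l : ℝ} (h : Path G p (pt u v s) l) (huv : G.Adj u v)
      (hs0 : 0 ≤ s) (hs1 : s ≤ 1) (ht0 : 0 ≤ t) (ht1 : t ≤ 1) : Path G p (pt u v t) (l + |t - s|)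

/-- The path metric of the continuous graph (infinite between different components). -/
noncomputable def dst (G : SimpleGraph V) (p q : V → ℝ) : ℝ≥0∞ :=
  ⨅ (l : ℝ) (_ : Path G p q l), ENNReal.ofReal l

/-- The closed ball of radius `r` about `p` in the continuous graph. -/
def Ball (G : SimpleGraph V) (p : V → ℝ) (r : ℝ) : Set (V → ℝ) :=
  {q | q ∈ Gam G ∧ dst G p q ≤ ENNReal.ofReal r}

/-- The continuous graph of `G` is `(1/2, c)`-colourable: it has a cover by closed balls of radius
`1/2` with centres in it, and a colouring of these balls with `c` colours in which distinct balls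
that meet get distinct colours. -/
def HalfColourable (G : SimpleGraph V) (c : ℕ) : Prop :=
  ∃ (B : Set (Set (V → ℝ))) (f : B → Fin c),
    (∀ b ∈ B, ∃ p ∈ Gam G, b = Ball G p (1 / 2)) ∧
    (∀ x ∈ Gam G, ∃ b ∈ B, x ∈ b) ∧
    ∀ b b' : B, b ≠ b' → ((b : Set (V → ℝ)) ∩ (b' : Set (V → ℝ))).Nonempty → f b ≠ f b'

/-- The `1/2`-chromatic number of the continuous graph of `G`. -/
noncomputable def halfChi (G : SimpleGraph V) : ℕ := sInf {c | 0 < c ∧ HalfColourable G c}

end Pool.Agent.R551.HC
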