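import Pool.Agent.R551.HC.Defs

/-!
# Geometry of the continuous graph
-/

namespace Pool.Agent.R551.HC

open scoped ENNReal

variable {V : Type} [DecidableEq V] {G : SimpleGraph V}

theorem pt_left {u v : V} (h : u ≠ v) (t : ℝ) : pt u v t u = 1 - t := by simp [pt, h]

theorem pt_right {u v : V} (h : u ≠ v) (t : ℝ) : pt u v t v = t := by simp [pt, h.symm]

theorem pt_other {u v w : V} (h : w ≠ u) (h' : w ≠ v) (t : ℝ) : pt u v t w = 0 := by
  simp [pt, h, h']

theorem pt_zero (u v : V) : pt u v 0 = pt u u 0 := by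
  funext w; simp [pt]

theorem pt_one (u v : V) : pt u v 1 = pt v v 0 := by
  funext w; simp [pt]

theorem pt_symm (u v : V) (t : ℝ) : pt u v t = pt v u (1 - t) := by
  funext w; simp [pt]; ring

theorem vert_self (v : V) : pt v v 0 v = 1 := by simp [pt]

theorem vert_other {v w : V} (h : w ≠ v) : pt v v 0 w = 0 := by simp [pt, h]

theorem vert_mem (v : V) : pt v v 0 ∈ Gam G := Or.inl ⟨v, rfl⟩

theorem pt_mem {u v : V} {t : ℝ} (h : G.Adj u v) (h0 : 0 ≤ t) (h1 : t ≤ 1) : pt u v t ∈ Gam G :=
  Or.inr ⟨u, v, t, h, h0, h1, rfl⟩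

/-- A function on points that is `1`-Lipschitz along each edge. -/
def Lip (G : SimpleGraph V) (f : (V → ℝ) → ℝ) : Prop :=
  ∀ u v s t, G.Adj u v → 0 ≤ s → s ≤ 1 → 0 ≤ t → t ≤ 1 → |f (pt u v t) - f (pt u v s)| ≤ |t - s|

theorem Path.lip {f : (V → ℝ) → ℝ} (hf : Lip G f) {p q : V → ℝ} {l : ℝ} (h : Path G p q l) :
    |f q - f p| ≤ l := by
  induction h with
  | nil hp => simp
  | cons h huv hs0 hs1 ht0 ht1 ih =>
    have h1 := hf _ _ _ _ huv hs0 hs1 ht0 ht1
    have h2 := abs_sub_le (f (pt _ _ _)) (f (pt _ _ _)) (f _) |>.trans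
      (add_le_add h1 ih)
    linarith

theorem mem_ball_lip {f : (V → ℝ) → ℝ} (hf : Lip G f) {p q : V → ℝ} {r : ℝ} (hr : 0 ≤ r)
    (h : q ∈ Ball G p r) : |f q - f p| ≤ r := by
  have h1 : ENNReal.ofReal |f q - f p| ≤ dst G p q :=
    le_iInf₂ fun l hl => ENNReal.ofReal_le_ofReal (hl.lip hf)
  exact (ENNReal.ofReal_le_ofReal_iff hr).1 (h1.trans h.2)

theorem mem_ball_of_path {p q : V → ℝ} {r l : ℝ} (hq : q ∈ Gam G) (h : Path G p q l)
    (hl : l ≤ r) : q ∈ Ball G p r :=
  ⟨hq, (iInf₂_le l h).trans (ENNReal.ofReal_le_ofReal hl)⟩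

theorem mem_ball_edge {u v : V} {s t r : ℝ} (huv : G.Adj u v) (hs0 : 0 ≤ s) (hs1 : s ≤ 1)
    (ht0 : 0 ≤ t) (ht1 : t ≤ 1) (h : |t - s| ≤ r) : pt u v t ∈ Ball G (pt u v s) r := by
  refine mem_ball_of_path (pt_mem huv ht0 ht1)
    (Path.cons (Path.nil _ (pt_mem huv hs0 hs1)) huv hs0 hs1 ht0 ht1) ?_
  simpa using h

theorem mem_ball_self {p : V → ℝ} {r : ℝ} (hp : p ∈ Gam G) (hr : 0 ≤ r) : p ∈ Ball G p r :=
  mem_ball_of_path hp (Path.nil p hp) hr

theorem lip_coord (w : V) : Lip G (fun x => x w) := by
  intro u v s t huv hs0 hs1 ht0 ht1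
  have hne := huv.ne
  by_cases h1 : w = u
  · subst h1
    simp only [pt_left hne]
    rw [show (1 - t - (1 - s)) = -(t - s) by ring, abs_neg]
  · by_cases h2 : w = v
    · subst h2
      simp only [pt_right hne]
      exact le_rfl
    · simp only [pt_other h1 h2]
      simp

/-- The distance to the midpoint of the edge `ab`, cut off at `3/2`. -/
noncomputable def gauge (a b : V) (x : V → ℝ) : ℝ := |x b - x a| / 2 + 3 / 2 * (1 - x a - x b)

theorem lip_gauge {a b : V} (hab : a ≠ b) : Lip G (gauge a b) := by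
  intro u v s t huv hs0 hs1 ht0 ht1
  have hne := huv.ne
  unfold gauge
  by_cases h1 : a = u
  · subst h1
    by_cases h2 : b = v
    · subst h2
      simp only [pt_left hne, pt_right hne]
      rcases abs_cases (t - s) with ⟨h, _⟩ | ⟨h, _⟩ <;> rw [h] <;>
      rcases abs_cases (t - (1 - t)) with ⟨h', _⟩ | ⟨h', _⟩ <;> rw [h'] <;>
      rcases abs_cases (s - (1 - s)) with ⟨h'', _⟩ | ⟨h'', _⟩ <;> rw [h''] <;>
      rw [abs_le] <;> constructor <;> linarith
    · simp only [pt_left hne, pt_other hab.symm h2]
      rw [abs_of_nonpos (a := 0 - (1 - t)) (by linarith),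
        abs_of_nonpos (a := 0 - (1 - s)) (by linarith)]
      apply le_of_eq
      congr 1
      ring
  · by_cases h2 : b = u
    · subst h2
      by_cases h3 : a = v
      · subst h3
        simp only [pt_left hne, pt_right hne]
        rcases abs_cases (t - s) with ⟨h, _⟩ | ⟨h, _⟩ <;> rw [h] <;>
        rcases abs_cases (1 - t - t) with ⟨h', _⟩ | ⟨h', _⟩ <;> rw [h'] <;>
        rcases abs_cases (1 - s - s) with ⟨h'', _⟩ | ⟨h'', _⟩ <;> rw [h''] <;>
        rw [abs_le] <;> constructor <;> linarith
      · simp only [pt_left hne, pt_other h1 h3]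
        rw [abs_of_nonneg (a := 1 - t - 0) (by linarith),
          abs_of_nonneg (a := 1 - s - 0) (by linarith)]
        apply le_of_eq
        congr 1
        ring
    · by_cases h3 : a = v
      · subst h3
        simp only [pt_right hne, pt_other h2 hab.symm]
        rw [abs_of_nonpos (a := 0 - t) (by linarith), abs_of_nonpos (a := 0 - s) (by linarith)]
        apply le_of_eq
        rw [← abs_neg]
        congr 1
        ring
      · by_cases h4 : b = v
        · subst h4
          simp only [pt_right hne, pt_other h1 hab]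
          rw [abs_of_nonneg (a := t - 0) (by linarith), abs_of_nonneg (a := s - 0) (by linarith)]
          apply le_of_eq
          rw [← abs_neg]
          congr 1
          ring
        · simp only [pt_other h1 h3, pt_other h2 h4]
          simp

theorem gauge_mid {a b : V} (hab : a ≠ b) : gauge a b (pt a b (1 / 2)) = 0 := by
  unfold gauge
  rw [pt_left hab, pt_right hab]
  norm_num

/-- A point within `1/2` of the midpoint of the edge `ab` lies on that edge. -/
theorem on_edge_of_gauge {a b : V} (hab : a ≠ b) {p : V → ℝ} (hp : p ∈ Gam G)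
    (h : gauge a b p ≤ 1 / 2) : ∃ t, 0 ≤ t ∧ t ≤ 1 ∧ p = pt a b t := by
  rcases hp with ⟨w, rfl⟩ | ⟨u, v, t, huv, ht0, ht1, rfl⟩
  · by_cases h1 : a = w
    · subst h1
      exact ⟨0, le_rfl, zero_le_one, (pt_zero _ _).symm⟩
    · by_cases h2 : b = w
      · subst h2
        exact ⟨1, zero_le_one, le_rfl, (pt_one _ _).symm⟩
      · exfalso
        unfold gauge at h
        rw [vert_other h1, vert_other h2] at h
        norm_num at h
  · have hne := huv.ne
    unfold gauge at h
    by_cases h1 : a = u
    · subst h1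
      by_cases h2 : b = v
      · subst h2
        exact ⟨t, ht0, ht1, rfl⟩
      · rw [pt_left hne, pt_other hab.symm h2,
          abs_of_nonpos (a := 0 - (1 - t)) (by linarith)] at h
        have : t = 0 := by linarith
        subst this
        exact ⟨0, le_rfl, zero_le_one, by rw [pt_zero, pt_zero a b]⟩
    · by_cases h2 : b = u
      · subst h2
        by_cases h3 : a = v
        · subst h3
          exact ⟨1 - t, by linarith, by linarith, pt_symm _ _ _⟩
        · rw [pt_left hne, pt_other h1 h3, abs_of_nonneg (a := 1 - t - 0) (by linarith)] at h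
          have : t = 0 := by linarith
          subst this
          exact ⟨1, zero_le_one, le_rfl, by rw [pt_zero, pt_one]⟩
      · by_cases h3 : a = v
        · subst h3
          rw [pt_right hne, pt_other h2 hab.symm,
            abs_of_nonpos (a := 0 - t) (by linarith)] at h
          have : t = 1 := by linarith
          subst this
          exact ⟨0, le_rfl, zero_le_one, by rw [pt_zero, pt_one]⟩
        · by_cases h4 : b = v
          · subst h4
            rw [pt_right hne, pt_other h1 hab, abs_of_nonneg (a := t - 0) (by linarith)] at h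
            have : t = 1 := by linarith
            subst this
            exact ⟨1, zero_le_one, le_rfl, by rw [pt_one, pt_one]⟩
          · rw [pt_other h1 h3, pt_other h2 h4] at h
            norm_num at h

/-- If the midpoint of `ab` lies in a ball of radius `1/2`, the centre lies on the edge `ab`. -/
theorem centre_on_edge {a b : V} (hab : a ≠ b) {p : V → ℝ} (hp : p ∈ Gam G)
    (h : pt a b (1 / 2) ∈ Ball G p (1 / 2)) : ∃ t, 0 ≤ t ∧ t ≤ 1 ∧ p = pt a b t := by
  have h1 := mem_ball_lip (lip_gauge hab) (by norm_num) h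
  rw [gauge_mid hab, abs_le] at h1
  exact on_edge_of_gauge hab hp (by linarith [h1.1])

/-- The value of the gauge of one edge at a point of an adjacent edge. -/
theorem gauge_adj {a b c : V} (hab : a ≠ b) (hac : a ≠ c) (hbc : b ≠ c) {t : ℝ}
    (ht1 : t ≤ 1) : gauge a b (pt a c t) = 1 / 2 + t := by
  unfold gauge
  rw [pt_left hac, pt_other hab.symm hbc, abs_of_nonpos (a := 0 - (1 - t)) (by linarith)]
  ring

/-- A point in two balls of radius `1/2` about vertices forces the vertices to be adjacent. -/
theorem adj_of_meet {u v : V} (huv : u ≠ v) {q : V → ℝ}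
    (hu : q ∈ Ball G (pt u u 0) (1 / 2)) (hv : q ∈ Ball G (pt v v 0) (1 / 2)) : G.Adj u v := by
  have h1 := mem_ball_lip (lip_coord u) (by norm_num) hu
  have h2 := mem_ball_lip (lip_coord v) (by norm_num) hv
  simp only [vert_self] at h1 h2
  rw [abs_le] at h1 h2
  have h3 : 1 / 2 ≤ q u := by linarith [h1.1]
  have h4 : 1 / 2 ≤ q v := by linarith [h2.1]
  rcases hu.1 with ⟨w, rfl⟩ | ⟨a, b, t, hab, ht0, ht1, rfl⟩
  · exfalso
    by_cases h5 : u = w
    · subst h5
      rw [vert_other huv.symm] at h4
      norm_num at h4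
    · rw [vert_other h5] at h3
      norm_num at h3
  · have hne := hab.ne
    have h5 : u = a ∨ u = b := by
      by_contra hcon
      push Not at hcon
      rw [pt_other hcon.1 hcon.2] at h3
      norm_num at h3
    have h6 : v = a ∨ v = b := by
      by_contra hcon
      push Not at hcon
      rw [pt_other hcon.1 hcon.2] at h4
      norm_num at h4
    rcases h5 with rfl | rfl <;> rcases h6 with rfl | rfl
    · exact absurd rfl huv
    · exact hab
    · exact hab.symm
    · exact absurd rfl huv

/-- Distinct vertices have distinct balls of radius `1/2`. -/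
theorem vert_ball_inj {u v : V} (h : Ball G (pt u u 0) (1 / 2) = Ball G (pt v v 0) (1 / 2)) :
    u = v := by
  by_contra huv
  have h1 : pt u u 0 ∈ Ball G (pt v v 0) (1 / 2) := by
    rw [← h]
    exact mem_ball_self (vert_mem u) (by norm_num)
  have h2 := mem_ball_lip (lip_coord u) (by norm_num) h1
  simp only [vert_self, vert_other huv] at h2
  norm_num at h2

end Pool.Agent.R551.HC
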