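import Pool.Agent.R551.HC.Sand
import Pool.Agent.NPC.Dec

/-!
# Transfer of inapproximability
-/

namespace Pool.Agent.R551.HC

open Pool.Agent.NPC

/-- Codes of graphs: the number of vertices in unary, and a list of pairs of vertices. -/
abbrev GCode : Type := List Unit × List (ℕ × ℕ)

/-- The number of vertices of a coded graph. -/
def ord (c : GCode) : ℕ := c.1.length

/-- The graph with a given code: distinct `i`, `j` are adjacent when `(i,j)` or `(j,i)` is
listed. -/
def gr (c : GCode) : SimpleGraph (Fin c.1.length) :=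
  SimpleGraph.fromRel (fun i j => ((i : ℕ), (j : ℕ)) ∈ c.2)

/-- The chromatic number of a coded graph. -/
noncomputable def chi (c : GCode) : ℕ := (gr c).chromaticNumber.toNat

/-- The `1/2`-chromatic number of the continuous graph of a coded graph. -/
noncomputable def hchi (c : GCode) : ℕ := halfChi (gr c)

/-- It is `NP`-hard to approximate the graph parameter `φ` within the factor `ρ n`: for every
language `L` in `NP` a polynomial-time function gives, for each `x`, a graph on `n` vertices and a
threshold `k` with `φ ≤ k` if `x ∈ L`, and `φ > ρ n * k` if `x ∉ L`. -/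
def HardToApprox (φ : GCode → ℕ) (ρ : ℕ → ℝ) : Prop :=
  ∀ L : Set (List Bool), InNP L → ∃ f : List Bool → GCode × ℕ,
    PolyTime (fun x => bits (f x)) ∧
    ∀ x, (x ∈ L → φ (f x).1 ≤ (f x).2) ∧
      (x ∉ L → ρ (ord (f x).1) * ((f x).2 : ℝ) < (φ (f x).1 : ℝ))

/-- All lists of length `m` with entries below `N`. -/
def cols (N : ℕ) : ℕ → List (List ℕ)
  | 0 => [[]]
  | m + 1 => (cols N m).flatMap fun l => (List.range N).map fun a => a :: l

theorem mem_cols {N : ℕ} : ∀ {m : ℕ} {l : List ℕ}, l ∈ cols N m ↔ l.length = m ∧ ∀ a ∈ l, a < N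
  | 0, l => by
    simp only [cols, List.mem_singleton]
    constructor
    · rintro rfl
      simp
    · rintro ⟨h, _⟩
      exact List.length_eq_zero_iff.1 h
  | m + 1, l => by
    simp only [cols, List.mem_flatMap, List.mem_map, List.mem_range]
    constructor
    · rintro ⟨l', hl', a, ha, rfl⟩
      rw [mem_cols] at hl'
      refine ⟨by simp [hl'.1], ?_⟩
      intro b hb
      rcases List.mem_cons.1 hb with rfl | hb
      · exact ha
      · exact hl'.2 b hb
    · rintro ⟨h1, h2⟩
      cases l with
      | nil => simp at h1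
      | cons a l' =>
        refine ⟨l', mem_cols.2 ⟨by simpa using h1, fun b hb => h2 b (List.mem_cons_of_mem _ hb)⟩,
          a, h2 a (List.mem_cons_self), rfl⟩

/-- The colouring test for graphs with at most `N` vertices. -/
def test (N : ℕ) (c : GCode × ℕ) : Bool :=
  (cols N N).any fun col =>
    (c.1.2.all fun e => (decide (c.1.1.length ≤ e.1) || decide (c.1.1.length ≤ e.2)) ||
      (decide (e.1 = e.2) || !(decide (col.getD e.1 0 = col.getD e.2 0)))) &&
    ((List.range c.1.1.length).all fun i => decide (col.getD i 0 < c.2))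

theorem poly_test (N : ℕ) : Poly (test N) := by
  refine Poly.any (p := fun (c : GCode × ℕ) (col : List ℕ) =>
    (c.1.2.all fun e => (decide (c.1.1.length ≤ e.1) || decide (c.1.1.length ≤ e.2)) ||
      (decide (e.1 = e.2) || !(decide (col.getD e.1 0 = col.getD e.2 0)))) &&
    ((List.range c.1.1.length).all fun i => decide (col.getD i 0 < c.2))) (NPC.Poly.const _) ?_
  refine Poly.and ?_ ?_
  · refine Poly.all (p := fun (q : (GCode × ℕ) × List ℕ) (e : ℕ × ℕ) =>
      (decide (q.1.1.1.length ≤ e.1) || decide (q.1.1.1.length ≤ e.2)) ||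
      (decide (e.1 = e.2) || !(decide (q.2.getD e.1 0 = q.2.getD e.2 0))))
      (Poly.snd (Poly.fst (Poly.fst Poly.id))) ?_
    have hlen : Poly (fun x : ((GCode × ℕ) × List ℕ) × ℕ × ℕ => x.1.1.1.1.length) :=
      Poly.length (Poly.fst (Poly.fst (Poly.fst (Poly.fst Poly.id))))
    have h1 : Poly (fun x : ((GCode × ℕ) × List ℕ) × ℕ × ℕ => x.2.1) :=
      Poly.fst (Poly.snd Poly.id)
    have h2 : Poly (fun x : ((GCode × ℕ) × List ℕ) × ℕ × ℕ => x.2.2) :=
      Poly.snd (Poly.snd Poly.id)
    have hc : Poly (fun x : ((GCode × ℕ) × List ℕ) × ℕ × ℕ => x.1.2) :=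
      Poly.snd (Poly.fst Poly.id)
    exact Poly.or (Poly.or (Poly.decide_le hlen h1) (Poly.decide_le hlen h2))
      (Poly.or (Poly.decide_eq h1 h2)
        (Poly.not (Poly.decide_eq (Poly.getD hc h1 (NPC.Poly.const 0)) (Poly.getD hc h2 (NPC.Poly.const 0)))))
  · refine Poly.all (p := fun (q : (GCode × ℕ) × List ℕ) (i : ℕ) =>
      decide (q.2.getD i 0 < q.1.2)) ?_ ?_
    · exact Poly.range_length (Poly.fst (Poly.fst (Poly.fst Poly.id)))
    · exact Poly.decide_lt (Poly.getD (Poly.snd (Poly.fst Poly.id)) (Poly.snd Poly.id)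
        (NPC.Poly.const 0)) (Poly.snd (Poly.fst (Poly.fst Poly.id)))

theorem test_iff {N : ℕ} {c : GCode × ℕ} (hN : ord c.1 ≤ N) :
    test N c = true ↔ (gr c.1).Colorable c.2 := by
  unfold test ord at *
  rw [List.any_eq_true]
  constructor
  · rintro ⟨col, hcol, h⟩
    rw [Bool.and_eq_true, List.all_eq_true, List.all_eq_true] at h
    obtain ⟨h1, h2⟩ := h
    refine ⟨SimpleGraph.Coloring.mk (fun i : Fin c.1.1.length =>
      (⟨col.getD i 0, by
        have := h2 i (List.mem_range.2 i.2)
        simpa using this⟩ : Fin c.2)) ?_⟩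
    intro i j hij heq
    simp only [Fin.mk.injEq] at heq
    rw [gr, SimpleGraph.fromRel_adj] at hij
    have hne : (i : ℕ) ≠ j := fun h => hij.1 (Fin.ext h)
    rcases hij.2 with h | h
    · have := h1 _ h
      simp only [Bool.or_eq_true, decide_eq_true_eq, Bool.not_eq_true', decide_eq_false_iff_not]
        at this
      rcases this with (h | h) | (h | h)
      · exact absurd i.2 (by omega)
      · exact absurd j.2 (by omega)
      · exact hne h
      · exact h heq
    · have := h1 _ h
      simp only [Bool.or_eq_true, decide_eq_true_eq, Bool.not_eq_true', decide_eq_false_iff_not]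
        at this
      rcases this with (h | h) | (h | h)
      · exact absurd j.2 (by omega)
      · exact absurd i.2 (by omega)
      · exact hne h.symm
      · exact h heq.symm
  · intro hc
    -- a colouring with small colours
    obtain ⟨k, hk1, hk2, hk3⟩ : ∃ k : Fin c.1.1.length → ℕ, (∀ i, k i < c.2) ∧ (∀ i, k i < N) ∧
        ∀ i j, (gr c.1).Adj i j → k i ≠ k j := by
      by_cases hle : c.2 ≤ N
      · obtain ⟨k⟩ := hc
        exact ⟨fun i => (k i : ℕ), fun i => (k i).2, fun i => lt_of_lt_of_le (k i).2 hle,
          fun i j hij h => k.valid hij (Fin.ext h)⟩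
      · refine ⟨fun i => (i : ℕ), fun i => ?_, fun i => ?_, fun i j hij h => hij.ne (Fin.ext h)⟩
        · have := i.2
          show (i : ℕ) < c.2
          omega
        · have := i.2
          show (i : ℕ) < N
          omega
    refine ⟨List.ofFn (fun i : Fin N => if h : (i : ℕ) < c.1.1.length then k ⟨i, h⟩ else 0),
      ?_, ?_⟩
    · rw [mem_cols]
      refine ⟨List.length_ofFn, ?_⟩
      intro a ha
      rw [List.mem_ofFn] at ha
      obtain ⟨i, rfl⟩ := ha
      split_ifs with h
      · exact hk2 _
      · exact lt_of_le_of_lt (Nat.zero_le _) i.2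
    · have hget : ∀ i (h : i < c.1.1.length), (List.ofFn (fun i : Fin N =>
          if h : (i : ℕ) < c.1.1.length then k ⟨i, h⟩ else 0)).getD i 0 = k ⟨i, h⟩ := by
        intro i h
        rw [List.getD_eq_getElem?_getD, List.getElem?_ofFn, dif_pos (by omega : i < N)]
        simp [h]
      rw [Bool.and_eq_true, List.all_eq_true, List.all_eq_true]
      constructor
      · intro e he
        simp only [Bool.or_eq_true, decide_eq_true_eq, Bool.not_eq_true', decide_eq_false_iff_not]
        by_cases h1 : c.1.1.length ≤ e.1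
        · exact Or.inl (Or.inl h1)
        · by_cases h2 : c.1.1.length ≤ e.2
          · exact Or.inl (Or.inr h2)
          · by_cases h3 : e.1 = e.2
            · exact Or.inr (Or.inl h3)
            · refine Or.inr (Or.inr ?_)
              rw [hget _ (by omega), hget _ (by omega)]
              apply hk3
              rw [gr, SimpleGraph.fromRel_adj]
              refine ⟨fun h => h3 (by simpa using h), Or.inl ?_⟩
              exact he
      · intro i hi
        rw [List.mem_range] at hi
        rw [hget _ hi, decide_eq_true_eq]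
        exact hk1 _

theorem chi_le_iff (c : GCode) (k : ℕ) : chi c ≤ k ↔ (gr c).Colorable k := by
  have hfin : (gr c).chromaticNumber ≠ ⊤ :=
    SimpleGraph.chromaticNumber_ne_top_iff_exists.2 ⟨_, SimpleGraph.colorable_of_fintype _⟩
  rw [← SimpleGraph.chromaticNumber_le_iff_colorable, chi, ← ENat.natCast_toNat hfin]
  simp

theorem hchi_pos (c : GCode) : 0 < hchi c := (halfChi_spec (gr c)).1

theorem hchi_le_chi {c : GCode} (hc : 0 < ord c) : hchi c ≤ chi c := by
  have : Nonempty (Fin c.1.length) := ⟨⟨0, hc⟩⟩
  have hfin : (gr c).chromaticNumber ≠ ⊤ :=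
    SimpleGraph.chromaticNumber_ne_top_iff_exists.2 ⟨_, SimpleGraph.colorable_of_fintype _⟩
  have := (sandwich (gr c)).1
  rw [← ENat.natCast_toNat hfin] at this
  exact_mod_cast this

theorem chi_le_hchi (c : GCode) : chi c ≤ 3 * hchi c + 1 := by
  rw [chi_le_iff]
  exact colorable_of_halfColourable (halfChi_spec (gr c)).2

/-- The modified instance. -/
def modify (N : ℕ) (c : GCode × ℕ) : GCode × ℕ :=
  bif decide (ord c.1 ≤ N) then (bif test N c then (([()], []), 1) else (([()], []), 0)) else c

theorem poly_modify (N : ℕ) : Poly (modify N) :=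
  Poly.cond (Poly.decide_le (Poly.length (Poly.fst (Poly.fst Poly.id))) (NPC.Poly.const N))
    (Poly.cond (poly_test N) (NPC.Poly.const _) (NPC.Poly.const _)) Poly.id

theorem hardToApprox_transfer {δ ε : ℝ} (hδε : δ < ε) (hε : ε ≤ 1)
    (h : HardToApprox chi (fun n => (n : ℝ) ^ (1 - δ))) :
    HardToApprox hchi (fun n => (n : ℝ) ^ (1 - ε)) := by
  intro L hL
  obtain ⟨f, hf, hfL⟩ := h L hL
  obtain ⟨N, hN1, hN⟩ : ∃ N : ℕ, 1 ≤ N ∧ ∀ n : ℕ, N < n → (4 : ℝ) ≤ (n : ℝ) ^ (ε - δ) := by
    have h1 := (tendsto_rpow_atTop (show 0 < ε - δ by linarith)).comp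
      tendsto_natCast_atTop_atTop
    have h2 := h1.eventually_ge_atTop 4
    rw [Filter.eventually_atTop] at h2
    obtain ⟨N, hN⟩ := h2
    exact ⟨max N 1, le_max_right _ _, fun n hn => hN n (le_of_lt (lt_of_le_of_lt (le_max_left _ _) hn))⟩
  -- membership in terms of the instance
  have hmem : ∀ x, x ∈ L ↔ chi (f x).1 ≤ (f x).2 := by
    intro x
    constructor
    · exact (hfL x).1
    · intro hle
      by_contra hx
      have h2 := (hfL x).2 hx
      rcases Nat.eq_zero_or_pos (ord (f x).1) with h0 | h0
      · have hc0 : chi (f x).1 = 0 := by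
          have : chi (f x).1 ≤ 0 := by
            rw [chi_le_iff]
            have h3 := SimpleGraph.colorable_of_fintype (gr (f x).1)
            have h4 : Fintype.card (Fin (f x).1.1.length) = 0 := by
              rw [Fintype.card_fin]
              exact h0
            rwa [h4] at h3
          omega
        rw [h0, hc0] at h2
        simp only [Nat.cast_zero] at h2
        rw [Real.zero_rpow (by linarith), zero_mul] at h2
        exact lt_irrefl _ h2
      · have h3 : (1 : ℝ) ≤ (ord (f x).1 : ℝ) ^ (1 - δ) :=
          Real.one_le_rpow (by exact_mod_cast h0) (by linarith)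
        have h4 : ((f x).2 : ℝ) ≤ (ord (f x).1 : ℝ) ^ (1 - δ) * ((f x).2 : ℝ) :=
          le_mul_of_one_le_left (Nat.cast_nonneg _) h3
        have h5 : (chi (f x).1 : ℝ) ≤ ((f x).2 : ℝ) := by exact_mod_cast hle
        linarith
  refine ⟨fun x => modify N (f x), ?_, fun x => ?_⟩
  · -- polynomial time
    have h1 := polyTime_opt (Poly.optMap (o := unbits (GCode × ℕ)) (f := fun _ a => modify N a)
      poly_unbits ((poly_modify N).comp (Poly.snd Poly.id)))
    have h2 := H642R2.TMSim.polyTime_comp h1 hf
    convert h2 using 2 with x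
    rw [unbits_bits]
    rfl
  · show (x ∈ L → hchi (modify N (f x)).1 ≤ (modify N (f x)).2) ∧
      (x ∉ L → (ord (modify N (f x)).1 : ℝ) ^ (1 - ε) * ((modify N (f x)).2 : ℝ) <
        (hchi (modify N (f x)).1 : ℝ))
    by_cases hs : ord (f x).1 ≤ N
    · by_cases ht : test N (f x) = true
      · have he : modify N (f x) = (([()], []), 1) := by
          simp [modify, hs, ht]
        have hx : x ∈ L := by
          rw [hmem, chi_le_iff]
          exact (test_iff hs).1 ht
        rw [he]
        refine ⟨fun _ => ?_, fun hx' => absurd hx hx'⟩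
        have h3 : hchi ([()], []) ≤ chi ([()], []) := hchi_le_chi (by simp [ord])
        refine h3.trans ?_
        rw [chi_le_iff]
        have := SimpleGraph.colorable_of_fintype (gr ([()], []))
        rwa [Fintype.card_fin] at this
      · have he : modify N (f x) = (([()], []), 0) := by
          simp [modify, hs, ht]
        have hx : x ∉ L := by
          rw [hmem, chi_le_iff]
          exact fun h => ht ((test_iff hs).2 h)
        rw [he]
        refine ⟨fun hx' => absurd hx' hx, fun _ => ?_⟩
        have := hchi_pos ([()], [])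
        simp only [Nat.cast_zero, mul_zero]
        exact_mod_cast this
    · have he : modify N (f x) = f x := by
        simp [modify, hs]
      rw [he]
      have hs' : N < ord (f x).1 := not_le.1 hs
      have hpos : 0 < ord (f x).1 := by omega
      refine ⟨fun hx => (hchi_le_chi hpos).trans ((hfL x).1 hx), fun hx => ?_⟩
      have h1 := (hfL x).2 hx
      have h2 : (chi (f x).1 : ℝ) ≤ 3 * (hchi (f x).1 : ℝ) + 1 := by
        exact_mod_cast chi_le_hchi (f x).1
      have h3 := hN _ hs'
      set n : ℝ := (ord (f x).1 : ℝ) with hn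
      have hn1 : (1 : ℝ) ≤ n := by
        rw [hn]
        exact_mod_cast hpos
      have h4 : n ^ (1 - δ) = n ^ (1 - ε) * n ^ (ε - δ) := by
        rw [← Real.rpow_add (by linarith)]
        congr 1
        ring
      have h5 : (1 : ℝ) ≤ n ^ (1 - ε) := Real.one_le_rpow hn1 (by linarith)
      have h6 : (0 : ℝ) < (hchi (f x).1 : ℝ) := by exact_mod_cast hchi_pos (f x).1
      rcases Nat.eq_zero_or_pos (f x).2 with hk | hk
      · simp only [hk, Nat.cast_zero, mul_zero]
        exact h6
      · have hk1 : (1 : ℝ) ≤ ((f x).2 : ℝ) := by exact_mod_cast hk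
        have h7 : 1 ≤ n ^ (1 - ε) * ((f x).2 : ℝ) := one_le_mul_of_one_le_of_one_le h5 hk1
        have h8 : 4 * (n ^ (1 - ε) * ((f x).2 : ℝ)) ≤ n ^ (1 - δ) * ((f x).2 : ℝ) := by
          rw [h4]
          nlinarith
        show n ^ (1 - ε) * ((f x).2 : ℝ) < (hchi (f x).1 : ℝ)
        have h1' : n ^ (1 - δ) * ((f x).2 : ℝ) < (chi (f x).1 : ℝ) := h1
        linarith

end Pool.Agent.R551.HC
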