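import Pool.Agent.R551.HC.Geo

/-!
# The half-chromatic number and the chromatic number
-/

namespace Pool.Agent.R551.HC

open scoped ENNReal

/-- A graph with an orientation of outdegree at most `c` is `2c+1`-colourable. -/
theorem colorable_of_out {V : Type} [Fintype V] [DecidableEq V] (H : SimpleGraph V)
    (out : V → Finset V) (c : ℕ) (h1 : ∀ u v, H.Adj u v → v ∈ out u ∨ u ∈ out v)
    (h2 : ∀ u, (out u).card ≤ c) : H.Colorable (2 * c + 1) := by
  classical
  have key : ∀ n : ℕ, ∀ S : Finset V, S.card = n →
      ∃ k : V → Fin (2 * c + 1), ∀ u ∈ S, ∀ v ∈ S, H.Adj u v → k u ≠ k v := by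
    intro n
    induction n with
    | zero =>
      intro S hS
      rw [Finset.card_eq_zero] at hS
      subst hS
      exact ⟨fun _ => 0, by simp⟩
    | succ n ih =>
      intro S hS
      have hne : S.Nonempty := by
        rw [← Finset.card_pos]
        omega
      have hsum : ∑ v ∈ S, (S.filter (H.Adj v)).card ≤ ∑ v ∈ S, 2 * c := by
        have hA : ∀ v ∈ S, (S.filter (H.Adj v)).card ≤
            (S.filter (fun w => w ∈ out v)).card + (S.filter (fun w => v ∈ out w)).card := by
          intro v _
          rw [← Finset.card_union_add_card_inter]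
          refine le_trans (Finset.card_le_card ?_) (Nat.le_add_right _ _)
          intro w hw
          rw [Finset.mem_filter] at hw
          rw [Finset.mem_union, Finset.mem_filter, Finset.mem_filter]
          rcases h1 v w hw.2 with h | h
          · exact Or.inl ⟨hw.1, h⟩
          · exact Or.inr ⟨hw.1, h⟩
        have hB : ∑ v ∈ S, (S.filter (fun w => v ∈ out w)).card =
            ∑ w ∈ S, (S.filter (fun v => v ∈ out w)).card := by
          simp only [Finset.card_filter]
          exact Finset.sum_comm
        calc ∑ v ∈ S, (S.filter (H.Adj v)).card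
            ≤ ∑ v ∈ S, ((S.filter (fun w => w ∈ out v)).card
              + (S.filter (fun w => v ∈ out w)).card) := Finset.sum_le_sum hA
          _ = ∑ v ∈ S, (S.filter (fun w => w ∈ out v)).card
              + ∑ w ∈ S, (S.filter (fun v => v ∈ out w)).card := by
              rw [Finset.sum_add_distrib, hB]
          _ = ∑ v ∈ S, 2 * (S.filter (fun w => w ∈ out v)).card := by
              rw [← Finset.sum_add_distrib]
              exact Finset.sum_congr rfl fun v _ => by ring
          _ ≤ ∑ v ∈ S, 2 * c := by
              refine Finset.sum_le_sum fun v _ => Nat.mul_le_mul_left 2 ?_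
              refine le_trans (Finset.card_le_card ?_) (h2 v)
              intro w hw
              exact (Finset.mem_filter.1 hw).2
      obtain ⟨v, hv, hdeg⟩ := Finset.exists_le_of_sum_le hne hsum
      obtain ⟨k, hk⟩ := ih (S.erase v) (by rw [Finset.card_erase_of_mem hv]; omega)
      obtain ⟨x, hx⟩ : ∃ x : Fin (2 * c + 1), x ∉ (S.filter (H.Adj v)).image k := by
        by_contra hcon
        push Not at hcon
        have h3 : (Finset.univ : Finset (Fin (2 * c + 1))).card ≤
            ((S.filter (H.Adj v)).image k).card :=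
          Finset.card_le_card fun x _ => hcon x
        have h4 := Finset.card_image_le (s := S.filter (H.Adj v)) (f := k)
        rw [Finset.card_univ, Fintype.card_fin] at h3
        omega
      refine ⟨Function.update k v x, ?_⟩
      intro a ha b hb hab
      have hx' : ∀ w ∈ S, H.Adj v w → k w ≠ x := by
        intro w hw hvw hkw
        apply hx
        rw [Finset.mem_image]
        exact ⟨w, Finset.mem_filter.2 ⟨hw, hvw⟩, hkw⟩
      by_cases hav : a = v
      · subst hav
        have hbv : b ≠ a := hab.ne'
        rw [Function.update_self, Function.update_of_ne hbv]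
        exact (hx' b hb hab).symm
      · by_cases hbv : b = v
        · subst hbv
          rw [Function.update_self, Function.update_of_ne hav]
          exact hx' a ha hab.symm
        · rw [Function.update_of_ne hav, Function.update_of_ne hbv]
          exact hk a (Finset.mem_erase.2 ⟨hav, ha⟩) b (Finset.mem_erase.2 ⟨hbv, hb⟩) hab
  obtain ⟨k, hk⟩ := key _ Finset.univ rfl
  exact ⟨SimpleGraph.Coloring.mk k fun {a b} hab => hk a (Finset.mem_univ _) b
    (Finset.mem_univ _) hab⟩

variable {V : Type} [DecidableEq V] {G : SimpleGraph V}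

theorem halfColourable_of_colorable {n : ℕ} (h : G.Colorable n) : HalfColourable G n := by
  classical
  obtain ⟨k⟩ := h
  refine ⟨Set.range (fun v => Ball G (pt v v 0) (1 / 2)), fun b => k (Classical.choose b.2),
    ?_, ?_, ?_⟩
  · rintro b ⟨v, rfl⟩
    exact ⟨_, vert_mem v, rfl⟩
  · rintro x (⟨v, rfl⟩ | ⟨u, v, t, huv, ht0, ht1, rfl⟩)
    · exact ⟨_, ⟨v, rfl⟩, mem_ball_self (vert_mem v) (by norm_num)⟩
    · by_cases ht : t ≤ 1 / 2
      · refine ⟨_, ⟨u, rfl⟩, ?_⟩
        show pt u v t ∈ Ball G (pt u u 0) (1 / 2)
        rw [← pt_zero u v]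
        exact mem_ball_edge huv le_rfl zero_le_one ht0 ht1 (by
          rw [sub_zero, abs_of_nonneg ht0]
          exact ht)
      · refine ⟨_, ⟨v, rfl⟩, ?_⟩
        show pt u v t ∈ Ball G (pt v v 0) (1 / 2)
        rw [← pt_one u v]
        exact mem_ball_edge huv zero_le_one le_rfl ht0 ht1 (by
          rw [abs_of_nonpos (by linarith)]
          linarith)
  · rintro b b' hbb ⟨q, hq, hq'⟩
    have e1 := Classical.choose_spec b.2
    have e2 := Classical.choose_spec b'.2
    apply k.valid
    have hne : Classical.choose b.2 ≠ Classical.choose b'.2 := by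
      intro heq
      apply hbb
      apply Subtype.ext
      rw [← e1, ← e2, heq]
    refine adj_of_meet hne (q := q) ?_ ?_
    · exact (Set.ext_iff.1 e1 q).2 hq
    · exact (Set.ext_iff.1 e2 q).2 hq'

theorem colorable_of_halfColourable [Fintype V] {c : ℕ} (h : HalfColourable G c) :
    G.Colorable (3 * c + 1) := by
  classical
  obtain ⟨B, f, hB, hcov, hf⟩ := h
  -- vertices whose own ball is used
  let A : V → Prop := fun v => Ball G (pt v v 0) (1 / 2) ∈ B
  let H : SimpleGraph V :=
    { Adj := fun u v => G.Adj u v ∧ ¬ A u ∧ ¬ A v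
      symm := ⟨fun u v h => ⟨h.1.symm, h.2.2, h.2.1⟩⟩
      loopless := ⟨fun u h => h.1.ne rfl⟩ }
  let own : V → V → Prop := fun u v => G.Adj u v ∧ ∃ t : ℝ, 0 < t ∧ t ≤ 1 / 2 ∧
    Ball G (pt u v t) (1 / 2) ∈ B
  have hown : ∀ u v, H.Adj u v → own u v ∨ own v u := by
    rintro u v ⟨huv, hu, hv⟩
    obtain ⟨b, hb, hmem⟩ := hcov (pt u v (1 / 2)) (pt_mem huv (by norm_num) (by norm_num))
    obtain ⟨p, hp, rfl⟩ := hB b hb
    obtain ⟨t, ht0, ht1, rfl⟩ := centre_on_edge huv.ne hp hmem
    have ht0' : t ≠ 0 := by
      rintro rfl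
      rw [pt_zero] at hb
      exact hu hb
    have ht1' : t ≠ 1 := by
      rintro rfl
      rw [pt_one] at hb
      exact hv hb
    by_cases ht : t ≤ 1 / 2
    · exact Or.inl ⟨huv, t, lt_of_le_of_ne ht0 (Ne.symm ht0'), ht, hb⟩
    · refine Or.inr ⟨huv.symm, 1 - t, ?_, ?_, ?_⟩
      · have := lt_of_le_of_ne ht1 ht1'
        linarith
      · linarith
      · rw [← pt_symm]
        exact hb
  have hcard : ∀ u, (Finset.univ.filter (own u)).card ≤ c := by
    intro u
    have hinj : ∀ v v' (hv : own u v) (hv' : own u v'),
        f ⟨_, hv.2.choose_spec.2.2⟩ = f ⟨_, hv'.2.choose_spec.2.2⟩ → v = v' := by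
      intro v v' hv hv' heq
      by_contra hne
      obtain ⟨h1, h2, h3⟩ := hv.2.choose_spec
      obtain ⟨h1', h2', h3'⟩ := hv'.2.choose_spec
      refine hf ⟨_, hv.2.choose_spec.2.2⟩ ⟨_, hv'.2.choose_spec.2.2⟩ ?_ ?_ heq
      · intro hEq
        have hEq' : Ball G (pt u v hv.2.choose) (1 / 2) = Ball G (pt u v' hv'.2.choose) (1 / 2) :=
          congrArg Subtype.val hEq
        have hm : pt u v (1 / 2) ∈ Ball G (pt u v hv.2.choose) (1 / 2) := by
          refine mem_ball_edge hv.1 h1.le (by linarith) (by norm_num) (by norm_num) ?_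
          rw [abs_of_nonneg (by linarith)]
          linarith
        rw [hEq'] at hm
        have h4 := mem_ball_lip (lip_gauge hv.1.ne) (by norm_num) hm
        rw [gauge_mid hv.1.ne, gauge_adj hv.1.ne hv'.1.ne hne (by linarith), abs_le] at h4
        linarith [h4.1]
      · refine ⟨pt u u 0, ?_, ?_⟩
        · show pt u u 0 ∈ Ball G (pt u v hv.2.choose) (1 / 2)
          rw [← pt_zero u v]
          refine mem_ball_edge hv.1 h1.le (by linarith) le_rfl zero_le_one ?_
          rw [abs_of_nonpos (by linarith)]
          linarith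
        · show pt u u 0 ∈ Ball G (pt u v' hv'.2.choose) (1 / 2)
          rw [← pt_zero u v']
          refine mem_ball_edge hv'.1 h1'.le (by linarith) le_rfl zero_le_one ?_
          rw [abs_of_nonpos (by linarith)]
          linarith
    have h5 : Fintype.card {v // own u v} ≤ Fintype.card (Fin c) :=
      Fintype.card_le_of_injective (fun v : {v // own u v} => f ⟨_, v.2.2.choose_spec.2.2⟩)
        (fun v v' h => Subtype.ext (hinj v.1 v'.1 v.2 v'.2 h))
    rw [Fintype.card_fin, Fintype.card_subtype] at h5
    exact h5
  have hH : H.Colorable (2 * c + 1) := by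
    refine colorable_of_out H (fun u => Finset.univ.filter (own u)) c (fun u v huv => ?_) hcard
    rcases hown u v huv with h | h
    · exact Or.inl (Finset.mem_filter.2 ⟨Finset.mem_univ _, h⟩)
    · exact Or.inr (Finset.mem_filter.2 ⟨Finset.mem_univ _, h⟩)
  obtain ⟨k⟩ := hH
  have hcol : G.Coloring (Fin c ⊕ Fin (2 * c + 1)) := by
    refine SimpleGraph.Coloring.mk
      (fun v => if h : A v then Sum.inl (f ⟨_, h⟩) else Sum.inr (k v)) ?_
    intro u v huv
    by_cases hu : A u <;> by_cases hv : A v
    · rw [dif_pos hu, dif_pos hv]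
      intro heq
      refine hf ⟨_, hu⟩ ⟨_, hv⟩ ?_ ?_ (Sum.inl_injective heq)
      · intro h
        exact huv.ne (vert_ball_inj (congrArg Subtype.val h))
      · refine ⟨pt u v (1 / 2), ?_, ?_⟩
        · show pt u v (1 / 2) ∈ Ball G (pt u u 0) (1 / 2)
          rw [← pt_zero u v]
          exact mem_ball_edge huv le_rfl zero_le_one (by norm_num) (by norm_num) (by norm_num)
        · show pt u v (1 / 2) ∈ Ball G (pt v v 0) (1 / 2)
          rw [← pt_one u v]
          exact mem_ball_edge huv zero_le_one le_rfl (by norm_num) (by norm_num) (by norm_num)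
    · rw [dif_pos hu, dif_neg hv]
      exact Sum.inl_ne_inr
    · rw [dif_neg hu, dif_pos hv]
      exact Sum.inr_ne_inl
    · rw [dif_neg hu, dif_neg hv]
      intro heq
      exact k.valid (show H.Adj u v from ⟨huv, hu, hv⟩) (Sum.inr_injective heq)
  have := hcol.colorable
  rw [Fintype.card_sum, Fintype.card_fin, Fintype.card_fin] at this
  convert this using 1
  ring

theorem halfChi_spec [Fintype V] (G : SimpleGraph V) : 0 < halfChi G ∧ HalfColourable G (halfChi G) := by
  have hne : {c | 0 < c ∧ HalfColourable G c}.Nonempty :=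
    ⟨Fintype.card V + 1, by positivity, halfColourable_of_colorable
      ((SimpleGraph.colorable_of_fintype G).mono (Nat.le_succ _))⟩
  exact Nat.sInf_mem hne

/-- The half-chromatic number is between a third of (the chromatic number minus one) and the
chromatic number. -/
theorem sandwich [Fintype V] [Nonempty V] (G : SimpleGraph V) :
    (halfChi G : ℕ∞) ≤ G.chromaticNumber ∧ G.chromaticNumber ≤ 3 * (halfChi G : ℕ∞) + 1 := by
  constructor
  · obtain ⟨n, hn⟩ : ∃ n : ℕ, G.chromaticNumber = n := by
      have := SimpleGraph.chromaticNumber_ne_top_iff_exists.2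
        ⟨_, SimpleGraph.colorable_of_fintype G⟩
      exact ⟨_, (ENat.natCast_toNat this).symm⟩
    rw [hn]
    have hcol : G.Colorable n := SimpleGraph.chromaticNumber_le_iff_colorable.1 hn.le
    have hpos : 0 < n := by
      rcases Nat.eq_zero_or_pos n with h | h
      · subst h
        obtain ⟨k⟩ := hcol
        exact (k (Classical.arbitrary V)).elim0
      · exact h
    have : halfChi G ≤ n := Nat.sInf_le ⟨hpos, halfColourable_of_colorable hcol⟩
    exact_mod_cast this
  · have := colorable_of_halfColourable (halfChi_spec G).2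
    have h2 := SimpleGraph.chromaticNumber_le_iff_colorable.2 this
    exact_mod_cast h2

end Pool.Agent.R551.HC
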